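import Pool.Agent.Y714.KW.Sz
import Pool.Agent.Y714.KE.All

set_option autoImplicit false
set_option linter.unusedSectionVars false
set_option linter.unusedVariables false

/-! Comparison of the heights and the count. -/

namespace Pool.Agent.Y714.KW

open Pool.Agent.Y714.KE
open Pool.Agent.Y714.KF (FI sp ct nm pm ext br gl ubas qf bk el sg bf)
open NumberField FractionalIdeal Module Finset ComplexConjugate Filter Topology
open scoped nonZeroDivisors

section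

theorem sum_offDiag {J : Type} [Fintype J] [DecidableEq J] (f : J → ℝ) :
    ∑ q ∈ (univ : Finset J).offDiag, (f q.1 + f q.2) =
      2 * ((Fintype.card J : ℝ) - 1) * ∑ j, f j := by
  have h1 : ∑ q ∈ (univ : Finset J) ×ˢ (univ : Finset J), (f q.1 + f q.2) =
      2 * (Fintype.card J : ℝ) * ∑ j, f j := by
    rw [sum_product]
    simp only [sum_add_distrib, sum_const, nsmul_eq_mul, Finset.card_univ]
    rw [← mul_sum]
    ring
  have h2 : ∑ q ∈ (univ : Finset J).diag, (f q.1 + f q.2) = 2 * ∑ j, f j := by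
    rw [sum_diag, mul_sum]
    exact sum_congr rfl fun j _ => by ring
  rw [← diag_union_offDiag, sum_union (disjoint_diag_offDiag _), h2] at h1
  linarith

theorem sum_block {J J' : Type} [Fintype J] [Fintype J'] (f : J → ℝ) (g : J' → ℝ) :
    ∑ i, ∑ j, (f i + g j) = (Fintype.card J' : ℝ) * ∑ i, f i + (Fintype.card J : ℝ) * ∑ j, g j := by
  simp only [sum_add_distrib, sum_const, nsmul_eq_mul, Finset.card_univ]
  rw [← mul_sum]

variable {s : Type} [Fintype s] [DecidableEq s] {K : s → Type} [∀ i, Field (K i)]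
  [∀ i, NumberField (K i)]

theorem sum_EmN (f : s → ℕ) : ∑ e : Em K, f e.1 = ∑ j, finrank ℚ (K j) * f j := by
  rw [Fintype.sum_sigma]
  refine sum_congr rfl fun i _ => ?_
  change ∑ _y : K i →+* ℂ, f i = _
  rw [sum_const, smul_eq_mul, Finset.card_univ, KF.card_emb]

theorem key (hDU : S_DU) (hNI : S_NI K) (e : s → ℕ) (he : ∀ i, 0 < e i)
    (h2e : ∀ i, 2 * e i ≤ ∑ j, finrank ℚ (K j) * e j) (t : ℝ) (ht0 : 0 ≤ t)
    (hE : EffK K fun i => t * e i - 2) (I : FU K) :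
    ∃ C : ℝ, 0 < C ∧ ∀ P : Al K × Al K, (∀ i, cn P i ≤ (I i : FI (K i))) → ND P →
      pm (vc P) ≤ C * sz (fun i => 2 * e i) (vc P) ^ (t / 2) := by
  classical
  obtain ⟨c, hc, hNI⟩ := hNI I
  set A : ℝ := |Real.log c| / 2 with hA
  set Ne : ℕ := ∑ σ : Em K, e σ.1 with hNe
  set X : ℝ := ∑ σ : Em K, (t * e σ.1 - 2) with hX
  refine ⟨Real.exp (t * (Ne * Real.log 2) + A * X), Real.exp_pos _, fun P hP hnd => ?_⟩
  set w : Em K → Em K → ℝ := fun a b => ‖br (vc P a) (vc P b)‖ with hw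
  have hwpos : ∀ a b, a ≠ b → 0 < w a b := fun a b hab => norm_pos_iff.2 (hnd a b hab)
  set H := sz (fun i => 2 * e i) (vc P) with hH
  obtain ⟨Λ, hΛ0, hΛ1, hΛ2⟩ := hDU (Em K) (fun a => e a.1) (fun a => he a.1)
    (fun a => by rw [sum_EmN]; exact h2e a.1) w (fun a b => KF.norm_br_swap _ _)
    (fun a b => norm_nonneg _) hwpos H (fun m => le_sz (d := fun i => 2 * e i) (vc P) m)
  have hprodpos : 0 < ∏ a : Em K, Λ a ^ (2 * e a.1) := prod_pos fun a _ => pow_pos (hΛ0 a) _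
  have hHpos : 0 < H := by
    by_contra hcon
    push Not at hcon
    have h1 : (2 : ℝ) ^ (2 * ∑ i : Em K, e i.1) * H ≤ 0 :=
      mul_nonpos_of_nonneg_of_nonpos (by positivity) hcon
    linarith
  set ζ : Em K → ℝ := fun a => Real.log (Λ a) with hζdef
  have hζ : ∀ a b, a ≠ b → Real.log (w a b) ≤ ζ a + ζ b := by
    intro a b hab
    rw [hζdef]
    simp only
    rw [← Real.log_mul (hΛ0 a).ne' (hΛ0 b).ne']
    exact Real.log_le_log (hwpos a b hab) (hΛ1 a b hab)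
  set zb : s → ℝ := fun i => (∑ σ : K i →+* ℂ, ζ ⟨i, σ⟩) / finrank ℚ (K i) with hzb
  have hcard : ∀ i, Fintype.card (K i →+* ℂ) = finrank ℚ (K i) := fun i => KF.card_emb
  have hnpos : ∀ i, (1 : ℝ) ≤ finrank ℚ (K i) := fun i => by
    exact_mod_cast (finrank_pos (R := ℚ) (M := K i))
  have hSum : ∀ i, ∑ σ : K i →+* ℂ, ζ ⟨i, σ⟩ = finrank ℚ (K i) * zb i := by
    intro i
    have := hnpos i
    rw [hzb]
    simp only
    field_simp
  have hlog : -|Real.log c| ≤ Real.log c := neg_abs_le _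
  have habs : 0 ≤ |Real.log c| := abs_nonneg _
  obtain ⟨hN1, hN2⟩ := hNI P hP hnd
  have hpair : ∀ a b : Em K, a ≠ b → 0 ≤ (zb a.1 + A) + (zb b.1 + A) := by
    rintro ⟨i, σ⟩ ⟨j, τ⟩ hab
    have key2 : -|Real.log c| ≤ zb i + zb j := by
      by_cases hij : i = j
      · subst hij
        have hn2 : 2 ≤ finrank ℚ (K i) := by
          rw [← hcard]
          exact Fintype.one_lt_card_iff.2 ⟨σ, τ, fun h => hab (by rw [h])⟩
        have hn2' : (2 : ℝ) ≤ finrank ℚ (K i) := by exact_mod_cast hn2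
        have hne : ∀ q ∈ (univ : Finset (K i →+* ℂ)).offDiag,
            (⟨i, q.1⟩ : Em K) ≠ ⟨i, q.2⟩ := by
          intro q hq h
          rw [mem_offDiag] at hq
          refine hq.2.2 ?_
          simpa using h
        have h2 : Real.log c ≤ ∑ q ∈ (univ : Finset (K i →+* ℂ)).offDiag,
            (ζ ⟨i, q.1⟩ + ζ ⟨i, q.2⟩) := by
          refine (Real.log_le_log hc (hN2 i)).trans ?_
          rw [Real.log_prod fun q hq => (hwpos _ _ (hne q hq)).ne']
          exact sum_le_sum fun q hq => hζ _ _ (hne q hq)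
        rw [sum_offDiag (fun σ => ζ ⟨i, σ⟩), hcard, hSum] at h2
        by_cases hz : 0 ≤ zb i
        · linarith
        · push Not at hz
          have h3 : 1 ≤ ((finrank ℚ (K i) : ℝ) - 1) * finrank ℚ (K i) := by nlinarith
          have h4 : ((finrank ℚ (K i) : ℝ) - 1) * finrank ℚ (K i) * zb i ≤ 1 * zb i :=
            mul_le_mul_of_nonpos_right h3 hz.le
          nlinarith
      · have hne : ∀ (a : K i →+* ℂ) (b : K j →+* ℂ), (⟨i, a⟩ : Em K) ≠ ⟨j, b⟩ :=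
          fun a b h => hij (congrArg Sigma.fst h)
        have h2 : Real.log c ≤ ∑ a : K i →+* ℂ, ∑ b : K j →+* ℂ, (ζ ⟨i, a⟩ + ζ ⟨j, b⟩) := by
          refine (Real.log_le_log hc (hN1 i j hij)).trans ?_
          rw [Real.log_prod fun a _ => (prod_pos fun b _ => hwpos _ _ (hne a b)).ne']
          refine sum_le_sum fun a _ => ?_
          rw [Real.log_prod fun b _ => (hwpos _ _ (hne a b)).ne']
          exact sum_le_sum fun b _ => hζ _ _ (hne a b)
        rw [sum_block (fun a => ζ ⟨i, a⟩) (fun b => ζ ⟨j, b⟩), hcard, hcard, hSum, hSum] at h2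
        have h3 : Real.log c ≤ ((finrank ℚ (K i) : ℝ) * finrank ℚ (K j)) * (zb i + zb j) := by
          linarith
        by_cases hz : 0 ≤ zb i + zb j
        · linarith
        · push Not at hz
          have h4 : 1 ≤ (finrank ℚ (K i) : ℝ) * finrank ℚ (K j) :=
            one_le_mul_of_one_le_of_one_le (hnpos i) (hnpos j)
          have h5 := mul_le_mul_of_nonpos_right h4 hz.le
          linarith
    simp only
    rw [hA]
    linarith
  have heff := ML.eff_sum (fun a : Em K => t * e a.1 - 2) (fun a => zb a.1 + A)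
    ((eff_iff (K := K) fun i => t * e i - 2).2 hE) hpair
  have h5 : ∑ a : Em K, (t * e a.1 - 2) * zb a.1 = ∑ a : Em K, (t * e a.1 - 2) * ζ a := by
    rw [Fintype.sum_sigma, Fintype.sum_sigma]
    refine sum_congr rfl fun i _ => ?_
    change ∑ _σ : K i →+* ℂ, (t * e i - 2) * zb i = ∑ σ : K i →+* ℂ, (t * e i - 2) * ζ ⟨i, σ⟩
    rw [sum_const, ← mul_sum, hSum, nsmul_eq_mul, Finset.card_univ, hcard]
    ring
  have h5' : 0 ≤ ∑ a : Em K, (t * e a.1 - 2) * ζ a + A * X := by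
    have : ∑ a : Em K, (t * (e a.1 : ℝ) - 2) * (zb a.1 + A) =
        ∑ a : Em K, (t * (e a.1 : ℝ) - 2) * zb a.1 + A * X := by
      rw [hX, mul_sum, ← sum_add_distrib]
      exact sum_congr rfl fun a _ => by ring
    rw [this, h5] at heff
    exact heff
  -- the bound of the size
  have h6 : pm (vc P) ≤ ∏ a, Λ a ^ 2 := KF.pm_le fun π => by
    calc ∏ a, ‖br (vc P a) (vc P (π a))‖ ≤ ∏ a, (Λ a * Λ (π a)) :=
          prod_le_prod (fun _ _ => norm_nonneg _) fun a _ => by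
            by_cases h : a = π a
            · rw [← h, KF.br_self, norm_zero]
              exact (mul_pos (hΛ0 _) (hΛ0 _)).le
            · exact hΛ1 a (π a) h
      _ = (∏ a, Λ a) * ∏ a, Λ (π a) := prod_mul_distrib
      _ = _ := by rw [Equiv.prod_comp π Λ, ← sq, prod_pow]
  have h7 : ∏ a, Λ a ^ 2 = Real.exp (2 * ∑ a, ζ a) := by
    rw [mul_sum, Real.exp_sum]
    refine prod_congr rfl fun a _ => ?_
    rw [two_mul, Real.exp_add, hζdef]
    simp only
    rw [Real.exp_log (hΛ0 a), sq]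
  have h8 : 2 * ∑ a : Em K, (e a.1 : ℝ) * ζ a ≤ 2 * Ne * Real.log 2 + Real.log H := by
    have h9 := Real.log_le_log hprodpos hΛ2
    rw [Real.log_prod fun a _ => (pow_pos (hΛ0 a) _).ne',
      Real.log_mul (by positivity) hHpos.ne', Real.log_pow] at h9
    have h10 : ∑ a : Em K, Real.log (Λ a ^ (2 * e a.1)) = 2 * ∑ a : Em K, (e a.1 : ℝ) * ζ a := by
      rw [mul_sum]
      refine sum_congr rfl fun a _ => ?_
      rw [Real.log_pow, hζdef]
      push_cast
      ring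
    rw [h10] at h9
    refine h9.trans (le_of_eq ?_)
    push_cast
    rw [hNe]
    push_cast
    rfl
  have h11 : 2 * ∑ a, ζ a = t * ∑ a : Em K, (e a.1 : ℝ) * ζ a -
      ∑ a : Em K, (t * (e a.1 : ℝ) - 2) * ζ a := by
    rw [mul_sum, mul_sum, ← sum_sub_distrib]
    exact sum_congr rfl fun a _ => by ring
  have h12 : 2 * ∑ a, ζ a ≤ t * (Ne * Real.log 2) + A * X + Real.log H * (t / 2) := by
    have h13 : t * ∑ a : Em K, (e a.1 : ℝ) * ζ a ≤
        t * (Ne * Real.log 2 + Real.log H / 2) := by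
      refine mul_le_mul_of_nonneg_left ?_ ht0
      linarith
    rw [h11]
    linarith
  calc pm (vc P) ≤ _ := h6
    _ = _ := h7
    _ ≤ Real.exp (t * (Ne * Real.log 2) + A * X + Real.log H * (t / 2)) := Real.exp_le_exp.2 h12
    _ = _ := by rw [Real.exp_add, Real.rpow_def_of_pos hHpos]

theorem hs_nonneg (d : s → ℕ) (P : Al K × Al K) : 0 ≤ hs d P :=
  div_nonneg (sz_nonneg _ _) (prod_nonneg fun i _ => pow_nonneg (by
    have : 0 ≤ nm (cn P i) := absNorm_nonneg _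
    exact_mod_cast this) _)

theorem hp_le (hDU : S_DU) (hNI : S_NI K) (hCLS : S_CLS K) (hn : 2 ≤ dg K) (e : s → ℕ)
    (he : ∀ i, 0 < e i) (h2e : ∀ i, 2 * e i ≤ ∑ j, finrank ℚ (K j) * e j) (t : ℝ) (ht0 : 0 ≤ t)
    (hE : EffK K fun i => t * e i - 2) :
    ∃ C : ℝ, 0 < C ∧ ∀ P : Al K × Al K, ND P → hp P ≤ C * hs (fun i => 2 * e i) P ^ (t / 2) := by
  classical
  obtain ⟨R, hR, -⟩ := hCLS
  choose Cr hCr0 hCr using key hDU hNI e he h2e t ht0 hE
  set D : FU K → ℝ := fun r => ∏ i, ((nm (r i : FI (K i)) : ℚ) : ℝ) ^ (2 * e i) with hD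
  have hrpos : ∀ (r : FU K) (i : s), 0 < ((nm (r i : FI (K i)) : ℚ) : ℝ) := by
    intro r i
    have := KF.nm_pos (r i).ne_zero
    exact_mod_cast this
  have hDpos : ∀ r, 0 < D r := fun r => prod_pos fun i _ => pow_pos (hrpos r i) _
  have hNpos : ∀ r : FU K, 0 < ((nA (cf r) : ℚ) : ℝ) := by
    intro r
    have : 0 < nA (cf r) := nA_pos fun i => (r i).ne_zero
    exact_mod_cast this
  set G : FU K → ℝ := fun r => Cr r * D r ^ (t / 2) / ((nA (cf r) : ℚ) : ℝ) ^ 2 with hG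
  have hGpos : ∀ r, 0 < G r := fun r => by
    have h1 := hCr0 r
    have h2 := Real.rpow_pos_of_pos (hDpos r) (t / 2)
    have h3 := hNpos r
    rw [hG]
    positivity
  refine ⟨∑ r ∈ R, G r + 1, by
    have := sum_nonneg fun r (_ : r ∈ R) => (hGpos r).le
    linarith, fun P hnd => ?_⟩
  have hcn : ∀ i, cn P i ≠ 0 := cn_ne (hnd.ne hn)
  obtain ⟨r, hr, x, hx⟩ := hR (fun i => Units.mk0 (cn P i) (hcn i))
  have hx0 : ∀ i, x i ≠ 0 := fun i => (hx i).1
  have hxi : ∀ i, x⁻¹ i ≠ 0 := fun i => inv_ne_zero (hx0 i)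
  have hcn2 : cn (sm x⁻¹ P) = cf r := by
    rw [cn_sm]
    funext i
    have h1 := (hx i).2
    rw [Units.val_mk0] at h1
    rw [h1, ← mul_assoc, ← KF.sp_mul]
    have : x⁻¹ i * x i = 1 := inv_mul_cancel₀ (hx0 i)
    rw [this]
    simp [cf]
  have hnd2 : ND (sm x⁻¹ P) := hnd.sm hxi
  rw [← Y977.KE.hp_sm hxi, ← hs_sm (fun i => 2 * e i) hxi P]
  set Q := sm x⁻¹ P with hQ
  have h1 := hCr r Q (fun i => by rw [hcn2]; exact le_rfl) hnd2
  have hsz : sz (fun i => 2 * e i) (vc Q) = hs (fun i => 2 * e i) Q * D r := by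
    unfold hs
    rw [hcn2]
    exact (div_mul_cancel₀ _ (hDpos r).ne').symm
  rw [hsz, Real.mul_rpow (hs_nonneg _ _) (hDpos r).le] at h1
  have h2 : hp Q ≤ G r * hs (fun i => 2 * e i) Q ^ (t / 2) := by
    unfold hp
    rw [hcn2, div_le_iff₀ (pow_pos (hNpos r) 2), hG]
    refine h1.trans (le_of_eq ?_)
    have := (hNpos r).ne'
    field_simp
  refine h2.trans (mul_le_mul_of_nonneg_right ?_ (Real.rpow_nonneg (hs_nonneg _ _) _))
  have := single_le_sum (fun r (_ : r ∈ R) => (hGpos r).le) hr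
  linarith

theorem hp_nonneg (P : Al K × Al K) : 0 ≤ hp P := div_nonneg (KF.pm_nonneg _) (sq_nonneg _)

theorem ht_le (hDU : S_DU) (hNI : S_NI K) (hCLS : S_CLS K) (hn : 2 ≤ dg K) (e : s → ℕ)
    (he : ∀ i, 0 < e i) (h2e : ∀ i, 2 * e i ≤ ∑ j, finrank ℚ (K j) * e j) (t : ℝ) (ht0 : 0 ≤ t)
    (hE : EffK K fun i => t * e i - 2) :
    ∃ C : ℝ, 0 < C ∧ ∀ P : Al K × Al K, ND P → ∀ T : ℝ, 1 ≤ T →
      hd (fun i => 2 * e i) P ≤ T ^ 2 → ht P ≤ C * T ^ t := by
  obtain ⟨C, hC, hle⟩ := hp_le hDU hNI hCLS hn e he h2e t ht0 hE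
  refine ⟨C * 2 ^ (t / 2), by positivity, fun P hnd T hT hh => ?_⟩
  have hT0 : 0 < T := by linarith
  have hlt : hd (fun i => 2 * e i) P < 2 * T ^ 2 := by nlinarith
  obtain ⟨r, ⟨a, b, c, d, hdet, rfl⟩, hr⟩ := exists_lt_of_csInf_lt
    (s := {r : ℝ | ∃ a b c d : ℚ, a * d - b * c ≠ 0 ∧
      r = hs (fun i => 2 * e i) (glq a b c d P)}) ⟨_, 1, 0, 0, 1, by norm_num, rfl⟩ hlt
  have h1 : ht P ≤ hp (glq a b c d P) := csInf_le
    ⟨0, by rintro _ ⟨a, b, c, d, _, rfl⟩; exact hp_nonneg _⟩ ⟨a, b, c, d, hdet, rfl⟩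
  refine h1.trans ((hle _ (hnd.glq hdet)).trans ?_)
  have h2 : hs (fun i => 2 * e i) (glq a b c d P) ^ (t / 2) ≤ (2 * T ^ 2) ^ (t / 2) :=
    Real.rpow_le_rpow (hs_nonneg _ _) hr.le (by linarith)
  have h3 : (2 * T ^ 2) ^ (t / 2) = 2 ^ (t / 2) * T ^ t := by
    rw [Real.mul_rpow (by norm_num) (by positivity)]
    congr 1
    rw [← Real.rpow_natCast T 2, ← Real.rpow_mul hT0.le]
    congr 1
    push_cast
    ring
  rw [h3] at h2
  calc C * hs (fun i => 2 * e i) (glq a b c d P) ^ (t / 2) ≤ C * (2 ^ (t / 2) * T ^ t) :=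
        mul_le_mul_of_nonneg_left h2 hC.le
    _ = _ := by ring

/-- the points of bounded anticanonical height -/
def SB (K : s → Type) [∀ i, Field (K i)] [∀ i, NumberField (K i)] (B : ℝ) :
    Set (Set (Al K × Al K)) := {C | ∃ P, ND P ∧ C = {P' | Eq2 P P'} ∧ ht P ≤ B}

theorem SB_mono {a b : ℝ} (h : a ≤ b) : SB K a ⊆ SB K b := by
  rintro C ⟨P, h1, h2, h3⟩
  exact ⟨P, h1, h2, h3.trans h⟩

theorem SB_lim (hodd : Odd (dg K)) (hn : 5 ≤ dg K) : ∃ c : ℝ, 0 < c ∧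
    Tendsto (fun B : ℝ => ((SB K B).ncard : ℝ) / (B * Real.log B ^ (Fintype.card s - 1)))
      atTop (𝓝 c) := by
  obtain ⟨c, hc, h⟩ := final K hodd hn ∅ (fun p hp => absurd hp (notMem_empty p))
    (fun _ => (1 : ℝ)) rfac_one (fun _ _ => (1 : ℝ)) (fun p hp => absurd hp (notMem_empty p))
  refine ⟨c, hc, ?_⟩
  simp only [prod_empty, mul_one] at h
  exact h

theorem SB_finite (hodd : Odd (dg K)) (hn : 5 ≤ dg K) (B : ℝ) : (SB K B).Finite := by
  obtain ⟨c, hc, h⟩ := SB_lim hodd hn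
  by_contra hinf
  have h1 : ∀ B' : ℝ, B ≤ B' → (SB K B').ncard = 0 := by
    intro B' hB'
    refine Set.Infinite.ncard ?_
    exact Set.Infinite.mono (SB_mono hB') hinf
  have h2 : Tendsto (fun B : ℝ => ((SB K B).ncard : ℝ) /
      (B * Real.log B ^ (Fintype.card s - 1))) atTop (𝓝 0) := by
    refine Tendsto.congr' ?_ tendsto_const_nhds
    filter_upwards [eventually_ge_atTop B] with B' hB'
    rw [h1 B' hB']
    simp
  exact hc.ne' (tendsto_nhds_unique h h2)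

theorem main (hDU : S_DU) (hNI : S_NI K) (hodd : Odd (dg K)) (hn : 5 ≤ dg K) (e : s → ℕ)
    (he : ∀ i, 0 < e i) (h2e : ∀ i, 2 * e i < ∑ j, finrank ℚ (K j) * e j) :
    ∃ C : ℝ, ∀ T : ℝ, 1 ≤ T →
      {D : Set (Al K × Al K) | ∃ P, ND P ∧ D = {P' | Eq2 P P'} ∧
        hd (fun i => 2 * e i) P ≤ T ^ 2}.Finite ∧
      ({D : Set (Al K × Al K) | ∃ P, ND P ∧ D = {P' | Eq2 P P'} ∧
        hd (fun i => 2 * e i) P ≤ T ^ 2}.ncard : ℝ) ≤
        C * T ^ fujK K e * (1 + Real.log T) ^ (Fintype.card s - 1) := by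
  classical
  have hcard : 4 ≤ Fintype.card (Em K) := by rw [card_Em]; omega
  obtain ⟨hf0, hf1⟩ := ML.fuj_mem (fun a : Em K => e a.1) (fun a => he a.1)
    (fun a => by rw [sum_EmN]; exact h2e a.1) hcard
  rw [fuj_eq] at hf0 hf1
  have hE : EffK K fun i => fujK K e * e i - 2 :=
    (eff_iff (K := K) fun i => fujK K e * e i - 2).1 hf1
  set f := fujK K e with hf
  obtain ⟨C₁, hC₁, hle⟩ := ht_le hDU hNI (Y421.KE.cls K) (by omega) e he
    (fun i => (h2e i).le) f hf0 hE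
  obtain ⟨c, hc, hlim⟩ := SB_lim (K := K) hodd hn
  have hev : ∀ᶠ B : ℝ in atTop, ((SB K B).ncard : ℝ) /
      (B * Real.log B ^ (Fintype.card s - 1)) < c + 1 :=
    hlim.eventually (gt_mem_nhds (by linarith))
  obtain ⟨B₁, hB₁⟩ := (hev.and (eventually_ge_atTop 3)).exists_forall_of_atTop
  have hB3 : 3 ≤ B₁ := (hB₁ B₁ le_rfl).2
  set C₂ : ℝ := C₁ + B₁ with hC₂
  have hC2 : 1 ≤ C₂ := by linarith
  have hlogC : 0 ≤ Real.log C₂ := Real.log_nonneg hC2
  refine ⟨(c + 1) * C₂ * (Real.log C₂ + f) ^ (Fintype.card s - 1), fun T hT => ?_⟩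
  have hT0 : 0 < T := by linarith
  have hlogT : 0 ≤ Real.log T := Real.log_nonneg hT
  have hTf : 1 ≤ T ^ f := Real.one_le_rpow hT hf0
  have hsub : {D : Set (Al K × Al K) | ∃ P, ND P ∧ D = {P' | Eq2 P P'} ∧
      hd (fun i => 2 * e i) P ≤ T ^ 2} ⊆ SB K (C₂ * T ^ f) := by
    rintro D ⟨P, h1, h2, h3⟩
    refine ⟨P, h1, h2, (hle P h1 T hT h3).trans ?_⟩
    exact mul_le_mul_of_nonneg_right (by linarith) (by linarith)
  refine ⟨(SB_finite hodd hn _).subset hsub, ?_⟩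
  have hge : B₁ ≤ C₂ * T ^ f := by nlinarith
  have h4 := (hB₁ _ hge).1
  have hlog1 : 0 < Real.log (C₂ * T ^ f) := Real.log_pos (by linarith)
  rw [div_lt_iff₀ (mul_pos (by linarith) (pow_pos hlog1 _))] at h4
  have h5 : ({D : Set (Al K × Al K) | ∃ P, ND P ∧ D = {P' | Eq2 P P'} ∧
      hd (fun i => 2 * e i) P ≤ T ^ 2}.ncard : ℝ) ≤ (SB K (C₂ * T ^ f)).ncard := by
    exact_mod_cast Set.ncard_le_ncard hsub (SB_finite hodd hn _)
  have h6 : Real.log (C₂ * T ^ f) ≤ (Real.log C₂ + f) * (1 + Real.log T) := by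
    rw [Real.log_mul (by linarith) (by linarith), Real.log_rpow hT0]
    nlinarith
  calc _ ≤ ((SB K (C₂ * T ^ f)).ncard : ℝ) := h5
    _ ≤ (c + 1) * (C₂ * T ^ f * Real.log (C₂ * T ^ f) ^ (Fintype.card s - 1)) := h4.le
    _ ≤ (c + 1) * (C₂ * T ^ f *
        ((Real.log C₂ + f) * (1 + Real.log T)) ^ (Fintype.card s - 1)) := by
      gcongr
    _ = _ := by rw [mul_pow]; ring

end

end Pool.Agent.Y714.KW
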