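import Pool.Agent.Y714.KW.Asm
import Pool.Agent.Y794.KW.Du
import Pool.Agent.Y794.KW.Ni

set_option autoImplicit false

/-! Big classes on the forms of `(P^1)^n // SL_2`: the final statement. -/

namespace Pool.Agent.Y714.KW

open Pool.Agent.Y714.KE
open NumberField Module

theorem final {s : Type} [Fintype s] [DecidableEq s] (K : s → Type) [∀ i, Field (K i)]
    [∀ i, NumberField (K i)] (hodd : Odd (dg K)) (hn : 5 ≤ dg K) (e : s → ℕ)
    (he : ∀ i, 0 < e i) (h2e : ∀ i, 2 * e i < ∑ j, finrank ℚ (K j) * e j) :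
    ∃ C : ℝ, ∀ T : ℝ, 1 ≤ T →
      {D : Set (Al K × Al K) | ∃ P, ND P ∧ D = {P' | Eq2 P P'} ∧
        hd (fun i => 2 * e i) P ≤ T ^ 2}.Finite ∧
      ({D : Set (Al K × Al K) | ∃ P, ND P ∧ D = {P' | Eq2 P P'} ∧
        hd (fun i => 2 * e i) P ≤ T ^ 2}.ncard : ℝ) ≤
        C * T ^ fujK K e * (1 + Real.log T) ^ (Fintype.card s - 1) :=
  main Y794.KW.du (Y794.KW.ni K) hodd hn e he h2e

end Pool.Agent.Y714.KW
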