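import Pool.Agent.Y714.KE.BasB

set_option autoImplicit false
set_option linter.unusedSectionVars false
set_option linter.unusedVariables false

/-! Big classes on the forms of `(P^1)^n // SL_2`: statements. -/

namespace Pool.Agent.Y714.KW

open Pool.Agent.Y714.KE
open Pool.Agent.Y714.KF (FI sp ct nm pm ext br gl ubas qf bk el sg bf)
open NumberField FractionalIdeal Module Finset ComplexConjugate
open scoped nonZeroDivisors

/-- the exponents of the monomials of degree `d i` in the point `i` -/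
def Mon {I : Type} [Fintype I] (d : I → ℕ) : Type :=
  {m : I × I → ℕ // ∀ i, ∑ j, (m (i, j) + m (j, i)) = d i}

/-- DU: duality -/
def S_DU : Prop := ∀ (I : Type) [Fintype I] [DecidableEq I] (e : I → ℕ), (∀ i, 0 < e i) →
  (∀ i, 2 * e i ≤ ∑ j, e j) → ∀ w : I → I → ℝ, (∀ i j, w i j = w j i) → (∀ i j, 0 ≤ w i j) →
  (∀ i j, i ≠ j → 0 < w i j) → ∀ H : ℝ,
  (∀ m : Mon (fun i => 2 * e i), ∏ q : I × I, w q.1 q.2 ^ m.1 q ≤ H) →
  ∃ Λ : I → ℝ, (∀ i, 0 < Λ i) ∧ (∀ i j, i ≠ j → w i j ≤ Λ i * Λ j) ∧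
    ∏ i, Λ i ^ (2 * e i) ≤ 2 ^ (2 * ∑ i, e i) * H

variable {s : Type} [Fintype s] [DecidableEq s] (K : s → Type) [∀ i, Field (K i)]
  [∀ i, NumberField (K i)]

/-- NI: integrality of the norms -/
def S_NI : Prop := ∀ I : FU K, ∃ c : ℝ, 0 < c ∧ ∀ P : Al K × Al K,
  (∀ i, cn P i ≤ (I i : FI (K i))) → ND P →
  (∀ i j, i ≠ j → c ≤ ∏ σ : K i →+* ℂ, ∏ τ : K j →+* ℂ, ‖br (vc P ⟨i, σ⟩) (vc P ⟨j, τ⟩)‖) ∧
  (∀ i, c ≤ ∏ q ∈ (univ : Finset (K i →+* ℂ)).offDiag, ‖br (vc P ⟨i, q.1⟩) (vc P ⟨i, q.2⟩)‖)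

end Pool.Agent.Y714.KW
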