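import Pool.Agent.Y714.KW.Stm
import Pool.Agent.Y714.ML.Fin

set_option autoImplicit false
set_option linter.unusedSectionVars false
set_option linter.unusedVariables false

/-! Sizes for other classes. -/

namespace Pool.Agent.Y714.KW

open Pool.Agent.Y714.KE
open Pool.Agent.Y714.KF (FI sp ct nm pm ext br gl ubas qf bk el sg bf)
open NumberField FractionalIdeal Module Finset ComplexConjugate
open scoped nonZeroDivisors

section

instance {I : Type} [Fintype I] (d : I → ℕ) : Finite (Mon d) := by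
  classical
  have hle : ∀ (m : Mon d) (q : I × I), m.1 q ≤ d q.1 := by
    intro m q
    have h1 := m.2 q.1
    have h2 : m.1 (q.1, q.2) + m.1 (q.2, q.1) ≤ ∑ j, (m.1 (q.1, j) + m.1 (j, q.1)) :=
      single_le_sum (f := fun j => m.1 (q.1, j) + m.1 (j, q.1)) (fun _ _ => Nat.zero_le _)
        (mem_univ q.2)
    have h3 : m.1 (q.1, q.2) ≤ d q.1 := by omega
    exact h3
  refine Finite.of_injective (β := ∀ q : I × I, Fin (d q.1 + 1))
    (fun m q => ⟨m.1 q, Nat.lt_succ_of_le (hle m q)⟩) ?_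
  intro m m' h
  apply Subtype.ext
  funext q
  have := congrFun h q
  simpa using this

theorem prod_kappa {I : Type} [Fintype I] {d : I → ℕ} (m : Mon d) (κ : I → ℝ) :
    ∏ q : I × I, (κ q.1 * κ q.2) ^ m.1 q = ∏ i, κ i ^ d i := by
  have h1 : ∀ i, κ i ^ d i = (∏ j, κ i ^ m.1 (i, j)) * ∏ j, κ i ^ m.1 (j, i) := by
    intro i
    rw [← m.2 i, sum_add_distrib, pow_add, prod_pow_eq_pow_sum, prod_pow_eq_pow_sum]
  rw [prod_congr rfl fun i _ => h1 i, prod_mul_distrib]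
  simp only [mul_pow, prod_mul_distrib]
  rw [Fintype.prod_prod_type, Fintype.prod_prod_type]
  congr 1
  rw [prod_comm]

variable {s : Type} [Fintype s] [DecidableEq s] {K : s → Type} [∀ i, Field (K i)]
  [∀ i, NumberField (K i)]

/-- the maximum of the monomials of degree `d` -/
noncomputable def sz (d : s → ℕ) (v : Em K → ℂ × ℂ) : ℝ :=
  ⨆ m : Mon (fun e : Em K => d e.1), ∏ q : Em K × Em K, ‖br (v q.1) (v q.2)‖ ^ m.1 q

/-- the height of a pair for the class `d` -/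
noncomputable def hs (d : s → ℕ) (P : Al K × Al K) : ℝ :=
  sz d (vc P) / ∏ i, ((nm (cn P i) : ℚ) : ℝ) ^ d i

/-- the height of a point for the class `d` -/
noncomputable def hd (d : s → ℕ) (P : Al K × Al K) : ℝ :=
  sInf {r : ℝ | ∃ a b c e : ℚ, a * e - b * c ≠ 0 ∧ r = hs d (glq a b c e P)}

theorem le_sz {d : s → ℕ} (v : Em K → ℂ × ℂ) (m : Mon (fun e : Em K => d e.1)) :
    ∏ q : Em K × Em K, ‖br (v q.1) (v q.2)‖ ^ m.1 q ≤ sz d v :=
  le_ciSup (f := fun m : Mon (fun e : Em K => d e.1) =>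
    ∏ q : Em K × Em K, ‖br (v q.1) (v q.2)‖ ^ m.1 q) (Set.finite_range _).bddAbove m

theorem sz_nonneg (d : s → ℕ) (v : Em K → ℂ × ℂ) : 0 ≤ sz d v :=
  Real.iSup_nonneg fun m => prod_nonneg fun q _ => by positivity

theorem sz_smul (d : s → ℕ) (a : Em K → ℂ) (v : Em K → ℂ × ℂ) :
    sz d (fun e => a e • v e) = (∏ e : Em K, ‖a e‖ ^ d e.1) * sz d v := by
  unfold sz
  rw [Real.mul_iSup_of_nonneg (prod_nonneg fun e _ => by positivity)]
  congr 1
  funext m
  rw [← prod_kappa m (fun e => ‖a e‖), ← prod_mul_distrib]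
  refine prod_congr rfl fun q _ => ?_
  have : br (a q.1 • v q.1) (a q.2 • v q.2) = a q.1 * a q.2 * br (v q.1) (v q.2) := by
    unfold KF.br
    simp only [Prod.smul_fst, Prod.smul_snd, smul_eq_mul]
    ring
  rw [this, norm_mul, norm_mul, mul_pow]

theorem nm_cn_pos {P : Al K × Al K} (h : ND P) (hn : 2 ≤ dg K) (i : s) :
    0 < ((nm (cn P i) : ℚ) : ℝ) := by
  have := KF.nm_pos (cn_ne (h.ne hn) i)
  exact_mod_cast this

theorem hs_sm (d : s → ℕ) {x : Al K} (hx : ∀ i, x i ≠ 0) (P : Al K × Al K) :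
    hs d (sm x P) = hs d P := by
  unfold hs
  rw [vc_sm, sz_smul d (fun e : Em K => e.2 (x e.1)), cn_sm]
  have h1 : ∏ e : Em K, ‖e.2 (x e.1)‖ ^ d e.1 = ∏ i, ((nm (sp (x i)) : ℚ) : ℝ) ^ d i := by
    rw [Fintype.prod_sigma]
    refine prod_congr rfl fun i _ => ?_
    change ∏ y : K i →+* ℂ, ‖y (x i)‖ ^ d i = _
    rw [prod_pow]
    congr 1
    exact KF.prod_norm_emb (x i)
  have h2 : ∏ i, ((nm (sp (x i) * cn P i) : ℚ) : ℝ) ^ d i =
      (∏ i, ((nm (sp (x i)) : ℚ) : ℝ) ^ d i) * ∏ i, ((nm (cn P i) : ℚ) : ℝ) ^ d i := by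
    rw [← prod_mul_distrib]
    refine prod_congr rfl fun i _ => ?_
    rw [← mul_pow]
    congr 1
    have : nm (sp (x i) * cn P i) = nm (sp (x i)) * nm (cn P i) := map_mul _ _ _
    rw [this]
    push_cast
    rfl
  rw [h1, h2]
  refine mul_div_mul_left _ _ ?_
  refine prod_ne_zero_iff.2 fun i _ => pow_ne_zero _ ?_
  have := KF.nm_pos (KF.sp_ne (hx i))
  have h3 : (0 : ℝ) < ((nm (sp (x i)) : ℚ) : ℝ) := by exact_mod_cast this
  exact h3.ne'

/-! ### the Fujita invariant -/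

/-- effective classes -/
def EffK (K : s → Type) [∀ i, Field (K i)] [∀ i, NumberField (K i)] (x : s → ℝ) : Prop :=
  ∀ i, 0 ≤ x i ∧ 2 * x i ≤ ∑ j, (finrank ℚ (K j) : ℝ) * x j

/-- the Fujita invariant -/
noncomputable def fujK (K : s → Type) [∀ i, Field (K i)] [∀ i, NumberField (K i)] (e : s → ℕ) : ℝ :=
  sInf {t : ℝ | EffK K fun i => t * e i - 2}

theorem sum_Em (f : s → ℝ) : ∑ e : Em K, f e.1 = ∑ j, (finrank ℚ (K j) : ℝ) * f j := by
  rw [Fintype.sum_sigma]
  refine sum_congr rfl fun i _ => ?_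
  change ∑ _y : K i →+* ℂ, f i = _
  rw [sum_const, nsmul_eq_mul, Finset.card_univ, KF.card_emb]

theorem eff_iff (x : s → ℝ) : ML.Eff (fun e : Em K => x e.1) ↔ EffK K x := by
  unfold ML.Eff EffK
  rw [sum_Em]
  constructor
  · intro h i
    obtain ⟨σ⟩ : Nonempty (K i →+* ℂ) := inferInstance
    exact h ⟨i, σ⟩
  · intro h e
    exact h e.1

theorem fuj_eq (e : s → ℕ) : ML.fuj (fun σ : Em K => e σ.1) = fujK K e := by
  unfold ML.fuj fujK
  congr 1
  ext t
  exact eff_iff (K := K) (fun i => t * e i - 2)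

end

end Pool.Agent.Y714.KW
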